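import Pool.Agent.H39.Newt3.Base

set_option autoImplicit false

namespace Pool.Newt3

open MvPolynomial Pool.Agent.H39.MonoR Pool.Agent.H75.Mono Pool.Newt Pool.Newt2

theorem sLvn : SLvn := by
  classical
  intro σ I _ _ a X Wf Q φ c h1 h2 h3 hE m
  set c' : ℕ := c + ∑ i, (m i).natAbs with hc'
  obtain ⟨N0, hN0⟩ := hE c'
  refine ⟨N0, fun N hN => ?_⟩
  rw [SerC, PowerSeries.coeff_mk]
  have hm : ∀ i, ((m i).natAbs : ℤ) ≤ (∑ i, (m i).natAbs : ℕ) := by
    intro i
    exact_mod_cast Finset.single_le_sum (f := fun i => (m i).natAbs) (fun _ _ => Nat.zero_le _)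
      (Finset.mem_univ i)
  have key : ∀ u : σ → ℤ, (∏ ξ, shf φ m ξ (lam a u N ξ)) * X ^ (∑ l, u l) = 0 := by
    intro u
    by_contra hne
    have hne' : ∀ ξ, shf φ m ξ (lam a u N ξ) ≠ 0 := by
      intro ξ h0
      exact hne (by rw [Finset.prod_eq_zero (Finset.mem_univ ξ) h0, zero_mul])
    refine hN0 u N hN ?_ ?_ ?_ ?_
    · intro l
      by_contra hl
      push Not at hl
      exact hne' (some (Sum.inl l)) (h1 l (u l) (Or.inl hl))
    · intro l hl
      by_contra hul
      exact hne' (some (Sum.inl l)) (h1 l (u l) (Or.inr ⟨hl, hul⟩))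
    · intro i
      by_contra hlt
      push Not at hlt
      refine hne' (some (Sum.inr i)) (h2 i _ ?_)
      show (∑ l, u l * (a i l : ℤ)) - N - m i < -(c : ℤ)
      have := hm i
      have h4 : ((c' : ℕ) : ℤ) = (c : ℤ) + (∑ i, (m i).natAbs : ℕ) := by
        rw [hc']; push_cast; ring
      have h5 : -(m i) ≤ ((m i).natAbs : ℤ) := by omega
      omega
    · intro i hi
      by_contra hlt
      push Not at hlt
      refine hne' (some (Sum.inr i)) (h3 i hi _ ?_)
      show (c : ℤ) < (∑ l, u l * (a i l : ℤ)) - N - m i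
      have := hm i
      have h4 : ((c' : ℕ) : ℤ) = (c : ℤ) + (∑ i, (m i).natAbs : ℕ) := by
        rw [hc']; push_cast; ring
      have h5 : (m i) ≤ ((m i).natAbs : ℤ) := by omega
      omega
  simp only [key, tsum_zero]

end Pool.Newt3
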